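import Mathlib
import Pool.Agent.W500.FL.Stm

set_option autoImplicit false

namespace Pool.Agent.W305.FL.IRR3

open Polynomial Pool.Agent.W500.FL Finset

theorem vdm {L : Type} [Field L] {n : ℕ} (v : Fin n → L) :
    ∏ i, ∏ j ∈ Finset.univ.erase i, (v i - v j) =
      (-1) ^ (n * (n - 1) / 2) * (Matrix.vandermonde v).det ^ 2 := by
  have h1 : ∏ i, ∏ j ∈ Finset.univ.erase i, (v i - v j) =
      ∏ i : Fin n, ∏ j ∈ Ioi i, ((v i - v j) * (v j - v i)) := by
    have h := Finset.prod_prod_Ioi_mul_eq_prod_prod_off_diag (fun a b : Fin n => v b - v a)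
    rw [h]
    refine Finset.prod_congr rfl fun i _ => ?_
    rw [Finset.compl_singleton]
  have h2 : ∀ i : Fin n, ∏ j ∈ Ioi i, ((v i - v j) * (v j - v i)) =
      (-1) ^ (n - 1 - (i : ℕ)) * (∏ j ∈ Ioi i, (v j - v i)) ^ 2 := by
    intro i
    rw [← Fin.card_Ioi i, ← Finset.prod_const, ← Finset.prod_pow, ← Finset.prod_mul_distrib]
    refine Finset.prod_congr rfl fun j _ => ?_
    ring
  have h3 : ∑ i : Fin n, (n - 1 - (i : ℕ)) = n * (n - 1) / 2 := by
    rw [Fin.sum_univ_eq_sum_range (fun i => n - 1 - i) n, Finset.sum_range_reflect (fun i => i) n,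
      Finset.sum_range_id]
  rw [h1, Finset.prod_congr rfl fun i _ => h2 i, Finset.prod_mul_distrib, Finset.prod_pow_eq_pow_sum,
    h3, Finset.prod_pow, Matrix.det_vandermonde]

theorem main : S_IRR := by
  intro K _ _ _ hK P hP hirr
  haveI : Fact (Irreducible P) := ⟨hirr⟩
  have hP0 : P ≠ 0 := hirr.ne_zero
  haveI hfd : Module.Finite K (AdjoinRoot P) := (AdjoinRoot.powerBasis hP0).finite
  haveI hfin : Finite (AdjoinRoot P) := Module.finite_of_finite K
  have hrank : Module.finrank K (AdjoinRoot P) = P.natDegree := by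
    rw [(AdjoinRoot.powerBasis hP0).finrank, AdjoinRoot.powerBasis_dim]
  have hn0 : 0 < P.natDegree := hirr.natDegree_pos
  set φ := FiniteField.frobeniusAlgHom K (AdjoinRoot P) with hφ
  set w : Fin P.natDegree → AdjoinRoot P := fun i => (φ ^ (i : ℕ)) (AdjoinRoot.root P) with hw
  have hwin : Function.Injective w := by
    intro i j hij
    have h1 : φ ^ (i : ℕ) = φ ^ (j : ℕ) := AdjoinRoot.algHom_ext hij
    have h2 := (FiniteField.bijective_frobeniusAlgHom_pow K (AdjoinRoot P)).1
      (a₁ := Fin.cast hrank.symm i) (a₂ := Fin.cast hrank.symm j) h1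
    exact Fin.cast_injective _ h2
  have hφn : φ ^ P.natDegree = 1 := by
    rw [← hrank, ← FiniteField.orderOf_frobeniusAlgHom K (AdjoinRoot P)]
    exact pow_orderOf_eq_one _
  have hroot : ∀ i, (P.map (algebraMap K (AdjoinRoot P))).IsRoot (w i) := by
    intro i
    rw [IsRoot, eval_map_algebraMap, hw]
    simp only
    rw [aeval_algHom_apply]
    have : aeval (AdjoinRoot.root P) P = 0 := AdjoinRoot.aeval_eq P ▸ AdjoinRoot.mk_self
    rw [this, map_zero]
  have hfac : P.map (algebraMap K (AdjoinRoot P)) = ∏ i, (X - C (w i)) := by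
    have hdvd : ∏ i, (X - C (w i)) ∣ P.map (algebraMap K (AdjoinRoot P)) :=
      Fintype.prod_dvd_of_coprime (pairwise_coprime_X_sub_C hwin)
        (fun i => dvd_iff_isRoot.mpr (hroot i))
    refine eq_of_monic_of_dvd_of_natDegree_le (monic_prod_of_monic _ _ fun i _ => monic_X_sub_C _)
      (hP.map _) hdvd ?_
    rw [natDegree_map, natDegree_prod_of_monic _ _ fun i _ => monic_X_sub_C _]
    simp
  have hdeg : (∏ i, (X - C (w i))).natDegree = P.natDegree := by
    rw [← hfac, natDegree_map]
  have hres : algebraMap K (AdjoinRoot P) (resultant P (derivative P)) =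
      ∏ i, ∏ j ∈ Finset.univ.erase i, (w i - w j) := by
    rw [← resultant_map_map, ← derivative_map, hfac]
    have e1 : resultant (∏ i, (X - C (w i))) (derivative (∏ i, (X - C (w i)))) P.natDegree
        (derivative P).natDegree = ∏ i, (X - C (w i)).resultant
          (derivative (∏ i, (X - C (w i)))) (X - C (w i)).natDegree (derivative P).natDegree := by
      rw [← resultant_prod_left]
      · rw [hdeg]
      · simp
      · rw [← hfac, derivative_map]
        exact natDegree_map_le
    rw [e1]
    refine Finset.prod_congr rfl fun i _ => ?_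
    rw [natDegree_X_sub_C, resultant_X_sub_C_left]
    · have := Lagrange.eval_nodal_derivative_eval_node_eq (s := Finset.univ) (v := w)
        (Finset.mem_univ i)
      rw [Lagrange.nodal_eq, Lagrange.eval_nodal] at this
      exact this
    · rw [← hfac, derivative_map]
      exact natDegree_map_le
  rw [vdm] at hres
  set δ := (Matrix.vandermonde w).det with hδ
  have hδ0 : δ ≠ 0 := Matrix.det_vandermonde_ne_zero_iff.mpr hwin
  have hφδ : φ δ = (-1) ^ (P.natDegree - 1) * δ := by
    have h1 : φ δ = ((Matrix.vandermonde w).map φ).det := by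
      rw [hδ]
      exact RingHom.map_det (φ : AdjoinRoot P →+* AdjoinRoot P) _
    have h2 : (Matrix.vandermonde w).map φ =
        (Matrix.vandermonde w).submatrix (finRotate P.natDegree) id := by
      ext i j
      simp only [Matrix.map_apply, Matrix.vandermonde_apply, Matrix.submatrix_apply, id, map_pow]
      congr 1
      show φ ((φ ^ (i : ℕ)) (AdjoinRoot.root P)) =
        (φ ^ ((finRotate P.natDegree i : Fin _) : ℕ)) (AdjoinRoot.root P)
      have h3 : φ ((φ ^ (i : ℕ)) (AdjoinRoot.root P)) =
          (φ ^ ((i : ℕ) + 1)) (AdjoinRoot.root P) := by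
        rw [pow_succ' φ (i : ℕ)]
        rfl
      rw [h3]
      congr 1
      obtain ⟨m, hm⟩ : ∃ m, P.natDegree = m + 1 := ⟨P.natDegree - 1, by omega⟩
      revert i
      rw [hm] at hφn ⊢
      intro i _
      by_cases hi : (i : ℕ) = m
      · have : i = Fin.last m := Fin.ext hi
        rw [this, finRotate_last]
        simpa using hφn
      · rw [coe_finRotate_of_ne_last]
        intro h
        exact hi (by rw [h]; rfl)
    rw [h1, h2, Matrix.det_permute, sign_finRotate]
    push_cast
    rfl
  have hq : Fintype.card K % 2 = 1 := FiniteField.odd_card_of_char_ne_two hK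
  have hδq : δ ^ Fintype.card K = (-1) ^ (P.natDegree - 1) * δ := hφδ
  have hδ2 : (δ ^ 2) ^ (Fintype.card K / 2) = (-1) ^ (P.natDegree - 1) := by
    have h1 : δ ^ Fintype.card K = (δ ^ 2) ^ (Fintype.card K / 2) * δ := by
      rw [← pow_mul, ← pow_succ]
      congr 1
      omega
    exact mul_right_cancel₀ hδ0 (h1.symm.trans hδq)
  have hr0 : resultant P (derivative P) ≠ 0 := by
    intro h
    rw [h, map_zero] at hres
    exact (mul_ne_zero (pow_ne_zero _ (neg_ne_zero.mpr one_ne_zero)) (pow_ne_zero 2 hδ0)) hres.symm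
  have key : ((quadraticChar K (resultant P (derivative P)) : ℤ) : K) =
      ((-(-1) ^ P.natDegree *
        quadraticChar K (-1) ^ (P.natDegree * (P.natDegree - 1) / 2) : ℤ) : K) := by
    apply (algebraMap K (AdjoinRoot P)).injective
    rw [quadraticChar_eq_pow_of_char_ne_two' hK, map_pow, hres, mul_pow, hδ2]
    push_cast
    rw [quadraticChar_eq_pow_of_char_ne_two' hK]
    simp only [map_mul, map_neg, map_pow, map_one]
    obtain ⟨m, hm⟩ : ∃ m, P.natDegree = m + 1 := ⟨P.natDegree - 1, by omega⟩
    rw [hm, Nat.add_sub_cancel, pow_succ (-1 : AdjoinRoot P) m, ← pow_mul, ← pow_mul,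
      mul_comm (Fintype.card K / 2)]
    ring
  have hne : (-1 : K) ≠ 1 := Ring.neg_one_ne_one_of_char_ne_two hK
  have c1 : quadraticChar K (resultant P (derivative P)) = 1 ∨
      quadraticChar K (resultant P (derivative P)) = -1 := quadraticChar_dichotomy hr0
  have c2 : (-(-1) ^ P.natDegree *
      quadraticChar K (-1) ^ (P.natDegree * (P.natDegree - 1) / 2) : ℤ) = 1 ∨
      (-(-1) ^ P.natDegree *
      quadraticChar K (-1) ^ (P.natDegree * (P.natDegree - 1) / 2) : ℤ) = -1 := by
    have d1 : ((-1 : ℤ) ^ P.natDegree = 1) ∨ ((-1 : ℤ) ^ P.natDegree = -1) :=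
      neg_one_pow_eq_or ℤ _
    have d2 : (quadraticChar K (-1) : ℤ) = 1 ∨ (quadraticChar K (-1) : ℤ) = -1 :=
      quadraticChar_dichotomy (neg_ne_zero.mpr one_ne_zero)
    have d3 : (quadraticChar K (-1) : ℤ) ^ (P.natDegree * (P.natDegree - 1) / 2) = 1 ∨
        (quadraticChar K (-1) : ℤ) ^ (P.natDegree * (P.natDegree - 1) / 2) = -1 := by
      rcases d2 with h | h <;> rw [h]
      · left; simp
      · exact neg_one_pow_eq_or ℤ _
    rcases d1 with h | h <;> rcases d3 with h' | h' <;> rw [h, h'] <;> simp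
  show quadraticChar K (resultant P (derivative P)) = _
  rcases c1 with h | h <;> rcases c2 with h' | h' <;> rw [h, h'] at key <;> rw [h, h']
  · exact absurd (by push_cast at key; exact key.symm) hne
  · exact absurd (by push_cast at key; exact key) hne

end Pool.Agent.W305.FL.IRR3
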